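import Pool.Agent.R866.ENT.Main

/-! Under the Continuum Hypothesis there is an entangled set of reals which, with the subspace
topology, is a homogeneous space (a full positive answer to Q1). -/

namespace Pool.Agent.Results.MP_919a9a_lc.HomogeneousEntangled

open Pool.Agent.R866.ENT Filter Topology

/-- `E` is `(κ, k)`-entangled: it has at least `κ` elements, and for every family `F` of `κ` many
`k`-tuples of elements of `E`, each with pairwise distinct entries, such that distinct tuples of
`F` share no entries, and for every `t` in `{0,1}^k`, there are distinct `a, b` in `F` with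
`a i < b i` exactly when `t i = 0`, for every `i < k`. -/
def EntangledAt (κ : Cardinal.{0}) (k : ℕ) (E : Set ℝ) : Prop :=
  κ ≤ Cardinal.mk E ∧
  ∀ F : Set (Fin k → ℝ), Cardinal.mk F = κ →
    (∀ a ∈ F, (∀ i, a i ∈ E) ∧ Function.Injective a) →
    (∀ a ∈ F, ∀ b ∈ F, a ≠ b → ∀ i j, a i ≠ b j) →
    ∀ t : Fin k → Fin 2, ∃ a ∈ F, ∃ b ∈ F, a ≠ b ∧ ∀ i, (a i < b i ↔ t i = 0)

/-- `E` is entangled: `(ℵ₁, k)`-entangled for every `k ≥ 1`. -/
def Entangled (E : Set ℝ) : Prop :=
  ∀ k : ℕ, 1 ≤ k → EntangledAt (Cardinal.aleph 1) k E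

/-- `E` with the subspace topology is a homogeneous space. -/
def Homogeneous (E : Set ℝ) : Prop :=
  ∀ x y : E, ∃ h : E ≃ₜ E, h x = y

/-- **CH implies that some entangled set of reals is homogeneous.** -/
theorem result (CH : Cardinal.continuum.{0} = Cardinal.aleph 1) :
    ∃ E : Set ℝ, Entangled E ∧ Homogeneous E := by
  obtain ⟨e, he1, he2⟩ := exists_generic CH CC_mem
  refine ⟨emb '' {x : X | ∃ α, x =ᶠ[atTop] e α}, fun k hk => ⟨aleph_one_le he2, ?_⟩, ?_⟩
  · intro F hF hFE hdis t
    have hFc : ¬ F.Countable := by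
      rw [← Cardinal.le_aleph0_iff_set_countable, hF, not_le]
      exact Cardinal.aleph0_lt_aleph_one
    obtain ⟨a, ha, b, hb, hab, h⟩ :=
      entangled_core he1 he2 hFc hFE hdis (fun i => decide (t i = 1))
    refine ⟨a, ha, b, hb, hab hk, fun i => ?_⟩
    rw [h i, decide_eq_false_iff_not]
    have : ∀ s : Fin 2, (¬ s = 1 ↔ s = 0) := by decide
    exact this (t i)
  · intro x y
    refine homogeneous_image ?_ x y
    rintro x ⟨α, hα⟩ y hy
    exact ⟨α, hy.trans hα⟩

end Pool.Agent.Results.MP_919a9a_lc.HomogeneousEntangled
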